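import Mathlib

set_option autoImplicit false

/-!
# A finitely presented residually finite metabelian group

The group `⟨a, b, t | [a, b], t a t⁻¹ = a ^ 2, t b t⁻¹ = b ^ 2⟩`, an ascending HNN extension of the
free abelian group of rank two.  It is residually finite and solvable, the elements `a` and `b` are
independent, and in every finite quotient the images of `a` and of `b` have odd order.
-/

namespace Pool.Agent.Lib.MP_39f9da_an

/-- Affine transformations `(x, y) ↦ (s x + u, s y + v)` over a commutative ring. -/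
@[ext]
structure Aff (R : Type) [CommRing R] where
  s : Rˣ
  u : R
  v : R

namespace Aff

variable {R S : Type} [CommRing R] [CommRing S]

instance : Mul (Aff R) := ⟨fun p q => ⟨p.s * q.s, p.u + p.s * q.u, p.v + p.s * q.v⟩⟩
instance : One (Aff R) := ⟨⟨1, 0, 0⟩⟩
instance : Inv (Aff R) := ⟨fun p => ⟨p.s⁻¹, -((p.s⁻¹ : Rˣ) * p.u), -((p.s⁻¹ : Rˣ) * p.v)⟩⟩

@[simp] lemma mul_s (p q : Aff R) : (p * q).s = p.s * q.s := rfl
@[simp] lemma mul_u (p q : Aff R) : (p * q).u = p.u + p.s * q.u := rfl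
@[simp] lemma mul_v (p q : Aff R) : (p * q).v = p.v + p.s * q.v := rfl
@[simp] lemma one_s : (1 : Aff R).s = 1 := rfl
@[simp] lemma one_u : (1 : Aff R).u = 0 := rfl
@[simp] lemma one_v : (1 : Aff R).v = 0 := rfl
@[simp] lemma inv_s (p : Aff R) : (p⁻¹).s = p.s⁻¹ := rfl
@[simp] lemma inv_u (p : Aff R) : (p⁻¹).u = -((p.s⁻¹ : Rˣ) * p.u) := rfl
@[simp] lemma inv_v (p : Aff R) : (p⁻¹).v = -((p.s⁻¹ : Rˣ) * p.v) := rfl

instance : Group (Aff R) :=
  Group.ofLeftAxioms
    (by intro p q r; ext <;> simp [mul_assoc, mul_add, add_assoc])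
    (by intro p; ext <;> simp)
    (by intro p; ext <;> simp)

/-- Functoriality in the ring. -/
def map (f : R →+* S) : Aff R →* Aff S where
  toFun p := ⟨Units.map f p.s, f p.u, f p.v⟩
  map_one' := by ext <;> simp
  map_mul' p q := by ext <;> simp

instance [Finite R] : Finite (Aff R) := by
  apply Finite.of_injective (fun p : Aff R => (p.s, p.u, p.v))
  intro p q h
  simp only [Prod.mk.injEq] at h
  ext
  · rw [h.1]
  · exact h.2.1
  · exact h.2.2

end Aff

local instance : Fact (Nat.Prime 3) := ⟨Nat.prime_three⟩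

/-- The affine group over the 3-adic integers is residually finite. -/
instance : Group.ResiduallyFinite (Aff ℤ_[3]) := by
  apply Group.residuallyFinite_of_forall_exists_finite_monoidHom
  intro g hg
  have hex : ∃ k : ℕ, Aff.map (PadicInt.toZModPow (p := 3) k) g ≠ 1 := by
    by_contra hcon
    push Not at hcon
    apply hg
    ext
    · rw [← PadicInt.ext_of_toZModPow]
      intro n
      have h1 := congrArg (fun p => ((Aff.s p : (ZMod (3 ^ n))ˣ) : ZMod (3 ^ n))) (hcon n)
      simpa [Aff.map] using h1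
    · rw [← PadicInt.ext_of_toZModPow]
      intro n
      have h1 := congrArg (fun p => (Aff.u p : ZMod (3 ^ n))) (hcon n)
      simpa [Aff.map] using h1
    · rw [← PadicInt.ext_of_toZModPow]
      intro n
      have h1 := congrArg (fun p => (Aff.v p : ZMod (3 ^ n))) (hcon n)
      simpa [Aff.map] using h1
  obtain ⟨k, hk⟩ := hex
  have : NeZero (3 ^ k) := ⟨by positivity⟩
  exact ⟨Aff (ZMod (3 ^ k)), inferInstance, inferInstance, Aff.map (PadicInt.toZModPow k), hk⟩

/-- The relators. -/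
def rels : Set (FreeGroup (Fin 3)) :=
  {FreeGroup.of 0 * FreeGroup.of 1 * (FreeGroup.of 0)⁻¹ * (FreeGroup.of 1)⁻¹,
   FreeGroup.of 2 * FreeGroup.of 0 * (FreeGroup.of 2)⁻¹ * (FreeGroup.of 0)⁻¹ * (FreeGroup.of 0)⁻¹,
   FreeGroup.of 2 * FreeGroup.of 1 * (FreeGroup.of 2)⁻¹ * (FreeGroup.of 1)⁻¹ * (FreeGroup.of 1)⁻¹}

/-- The group `⟨a, b, t | [a, b], t a t⁻¹ = a ^ 2, t b t⁻¹ = b ^ 2⟩`. -/
abbrev BS : Type := PresentedGroup rels

namespace BS

/-- First generator. -/
def a : BS := PresentedGroup.of 0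
/-- Second generator. -/
def b : BS := PresentedGroup.of 1
/-- Stable letter. -/
def t : BS := PresentedGroup.of 2

instance : Group.IsFinitelyPresented BS := by
  have : Finite rels := by
    unfold rels
    exact Set.toFinite _
  infer_instance

lemma rel_ab : a * b = b * a := by
  have h : (PresentedGroup.mk rels) (FreeGroup.of 0 * FreeGroup.of 1 * (FreeGroup.of 0)⁻¹ *
      (FreeGroup.of 1)⁻¹) = 1 := PresentedGroup.one_of_mem (by simp [rels])
  simp only [map_mul, map_inv] at h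
  change a * b * a⁻¹ * b⁻¹ = 1 at h
  rw [mul_inv_eq_one, mul_inv_eq_iff_eq_mul] at h
  exact h

lemma rel_ta : t * a = a * a * t := by
  have h : (PresentedGroup.mk rels) (FreeGroup.of 2 * FreeGroup.of 0 * (FreeGroup.of 2)⁻¹ *
      (FreeGroup.of 0)⁻¹ * (FreeGroup.of 0)⁻¹) = 1 := PresentedGroup.one_of_mem (by simp [rels])
  simp only [map_mul, map_inv] at h
  change t * a * t⁻¹ * a⁻¹ * a⁻¹ = 1 at h
  rw [mul_inv_eq_one, mul_inv_eq_iff_eq_mul, mul_inv_eq_iff_eq_mul] at h
  exact h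

lemma rel_tb : t * b = b * b * t := by
  have h : (PresentedGroup.mk rels) (FreeGroup.of 2 * FreeGroup.of 1 * (FreeGroup.of 2)⁻¹ *
      (FreeGroup.of 1)⁻¹ * (FreeGroup.of 1)⁻¹) = 1 := PresentedGroup.one_of_mem (by simp [rels])
  simp only [map_mul, map_inv] at h
  change t * b * t⁻¹ * b⁻¹ * b⁻¹ = 1 at h
  rw [mul_inv_eq_one, mul_inv_eq_iff_eq_mul, mul_inv_eq_iff_eq_mul] at h
  exact h

lemma conj_a (i : ℕ) (m : ℤ) : t ^ i * a ^ m = a ^ (2 ^ i * m) * t ^ i := by
  induction i generalizing m with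
  | zero => simp
  | succ i ih =>
    have h1 : SemiconjBy t a (a * a) := rel_ta
    have h2 : t * a ^ m = (a * a) ^ m * t := (h1.zpow_right m).eq
    have h3 : (a * a) ^ m = a ^ (2 * m) := by rw [← zpow_two, ← zpow_mul]
    calc t ^ (i + 1) * a ^ m = t ^ i * (t * a ^ m) := by rw [pow_succ, mul_assoc]
      _ = (t ^ i * a ^ (2 * m)) * t := by rw [h2, h3, mul_assoc]
      _ = a ^ (2 ^ (i + 1) * m) * t ^ (i + 1) := by
        rw [ih, mul_assoc, ← pow_succ, pow_succ (2 : ℤ) i, mul_assoc]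

lemma conj_b (i : ℕ) (m : ℤ) : t ^ i * b ^ m = b ^ (2 ^ i * m) * t ^ i := by
  induction i generalizing m with
  | zero => simp
  | succ i ih =>
    have h1 : SemiconjBy t b (b * b) := rel_tb
    have h2 : t * b ^ m = (b * b) ^ m * t := (h1.zpow_right m).eq
    have h3 : (b * b) ^ m = b ^ (2 * m) := by rw [← zpow_two, ← zpow_mul]
    calc t ^ (i + 1) * b ^ m = t ^ i * (t * b ^ m) := by rw [pow_succ, mul_assoc]
      _ = (t ^ i * b ^ (2 * m)) * t := by rw [h2, h3, mul_assoc]
      _ = b ^ (2 ^ (i + 1) * m) * t ^ (i + 1) := by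
        rw [ih, mul_assoc, ← pow_succ, pow_succ (2 : ℤ) i, mul_assoc]

lemma a_tinv (i : ℕ) (m : ℤ) : a ^ m * (t ^ i)⁻¹ = (t ^ i)⁻¹ * a ^ (2 ^ i * m) := by
  rw [mul_inv_eq_iff_eq_mul, mul_assoc, ← conj_a, inv_mul_cancel_left]

lemma b_tinv (i : ℕ) (m : ℤ) : b ^ m * (t ^ i)⁻¹ = (t ^ i)⁻¹ * b ^ (2 ^ i * m) := by
  rw [mul_inv_eq_iff_eq_mul, mul_assoc, ← conj_b, inv_mul_cancel_left]

lemma comm_ab (m n : ℤ) : a ^ m * b ^ n = b ^ n * a ^ m :=
  ((show Commute a b from rel_ab).zpow_zpow m n).eq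

/-- Being in normal form. -/
def NF (g : BS) : Prop := ∃ (i j : ℕ) (m n : ℤ), g = (t ^ i)⁻¹ * (a ^ m * b ^ n) * t ^ j

lemma NF.amul {g : BS} (hg : NF g) (k : ℤ) : NF (a ^ k * g) := by
  obtain ⟨i, j, m, n, rfl⟩ := hg
  refine ⟨i, j, 2 ^ i * k + m, n, ?_⟩
  rw [← mul_assoc, ← mul_assoc, a_tinv, mul_assoc ((t ^ i)⁻¹), ← mul_assoc (a ^ (2 ^ i * k)),
    ← zpow_add]

lemma NF.bmul {g : BS} (hg : NF g) (k : ℤ) : NF (b ^ k * g) := by
  obtain ⟨i, j, m, n, rfl⟩ := hg
  refine ⟨i, j, m, 2 ^ i * k + n, ?_⟩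
  rw [← mul_assoc, ← mul_assoc, b_tinv, mul_assoc ((t ^ i)⁻¹), ← mul_assoc (b ^ (2 ^ i * k)),
    ← comm_ab, mul_assoc (a ^ m), ← zpow_add]

lemma NF.tmul {g : BS} (hg : NF g) : NF (t * g) := by
  obtain ⟨i, j, m, n, rfl⟩ := hg
  cases i with
  | zero =>
    refine ⟨0, j + 1, 2 * m, 2 * n, ?_⟩
    have h1 := conj_a 1 m
    have h2 := conj_b 1 n
    simp only [pow_one] at h1 h2
    simp only [pow_zero, inv_one, one_mul]
    rw [← mul_assoc, ← mul_assoc, h1, mul_assoc _ t, h2, pow_succ', ← mul_assoc, ← mul_assoc]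
  | succ i =>
    refine ⟨i, j, m, n, ?_⟩
    rw [pow_succ]
    group

lemma NF.tinvmul {g : BS} (hg : NF g) : NF (t⁻¹ * g) := by
  obtain ⟨i, j, m, n, rfl⟩ := hg
  refine ⟨i + 1, j, m, n, ?_⟩
  rw [pow_succ]
  group

lemma nf_all (g : BS) : NF g := by
  have hg : g ∈ Subgroup.closure (Set.range (PresentedGroup.of : Fin 3 → PresentedGroup rels)) := by
    rw [PresentedGroup.closure_range_of]; trivial
  induction hg using Subgroup.closure_induction_left with
  | one => exact ⟨0, 0, 0, 0, by simp⟩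
  | mul_left x hx y hy ih =>
    obtain ⟨k, rfl⟩ := hx
    fin_cases k
    · have h1 := ih.amul 1
      rw [zpow_one] at h1
      exact h1
    · have h1 := ih.bmul 1
      rw [zpow_one] at h1
      exact h1
    · exact ih.tmul
  | inv_mul_cancel x hx y hy ih =>
    obtain ⟨k, rfl⟩ := hx
    fin_cases k
    · have h1 := ih.amul (-1)
      rw [zpow_neg_one] at h1
      exact h1
    · have h1 := ih.bmul (-1)
      rw [zpow_neg_one] at h1
      exact h1
    · exact ih.tinvmul

lemma isUnit_two : IsUnit (2 : ℤ_[3]) := by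
  rw [PadicInt.isUnit_iff]
  have h1 : ¬ ‖((2 : ℤ) : ℤ_[3])‖ < 1 := by
    rw [PadicInt.norm_int_lt_one_iff_dvd]
    decide
  have h2 := PadicInt.norm_le_one (2 : ℤ_[3])
  push_cast at h1
  linarith [not_lt.1 h1]

/-- The unit two. -/
noncomputable def two : ℤ_[3]ˣ := isUnit_two.unit

lemma two_val : (two : ℤ_[3]) = 2 := rfl

/-- The images of the generators. -/
noncomputable def gens : Fin 3 → Aff ℤ_[3] := ![⟨1, 1, 0⟩, ⟨1, 0, 1⟩, ⟨two, 0, 0⟩]

/-- The affine representation. -/
noncomputable def toAff : BS →* Aff ℤ_[3] :=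
  PresentedGroup.toGroup (f := gens) (by
    intro r hr
    simp only [rels, Set.mem_insert_iff, Set.mem_singleton_iff] at hr
    rcases hr with rfl | rfl | rfl
    · ext <;> simp [gens]
    · ext
      · simp [gens]
      · simp [gens, two_val]; norm_num
      · simp [gens]
    · ext
      · simp [gens]
      · simp [gens]
      · simp [gens, two_val]; norm_num)

lemma toAff_a : toAff a = ⟨1, 1, 0⟩ := by
  unfold toAff a; rw [PresentedGroup.toGroup.of]; rfl
lemma toAff_b : toAff b = ⟨1, 0, 1⟩ := by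
  unfold toAff b; rw [PresentedGroup.toGroup.of]; rfl
lemma toAff_t : toAff t = ⟨two, 0, 0⟩ := by
  unfold toAff t; rw [PresentedGroup.toGroup.of]; rfl

lemma toAff_apow (m : ℤ) : toAff (a ^ m) = ⟨1, m, 0⟩ := by
  rw [map_zpow, toAff_a]
  induction m using Int.induction_on with
  | zero => ext <;> simp
  | succ m ih => rw [zpow_add_one, ih]; ext <;> simp
  | pred m ih => rw [zpow_sub_one, ih]; ext <;> simp [sub_eq_add_neg]

lemma toAff_bpow (m : ℤ) : toAff (b ^ m) = ⟨1, 0, m⟩ := by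
  rw [map_zpow, toAff_b]
  induction m using Int.induction_on with
  | zero => ext <;> simp
  | succ m ih => rw [zpow_add_one, ih]; ext <;> simp
  | pred m ih => rw [zpow_sub_one, ih]; ext <;> simp [sub_eq_add_neg]

lemma toAff_tpow (m : ℕ) : toAff (t ^ m) = ⟨two ^ m, 0, 0⟩ := by
  rw [map_pow, toAff_t]
  induction m with
  | zero => ext <;> simp
  | succ m ih => rw [pow_succ, ih]; ext <;> simp [pow_succ]

/-- The affine representation is faithful. -/
lemma toAff_injective : Function.Injective toAff := by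
  rw [injective_iff_map_eq_one]
  intro g hg
  obtain ⟨i, j, m, n, rfl⟩ := nf_all g
  rw [map_mul, map_mul, map_mul, map_inv, toAff_apow, toAff_bpow, toAff_tpow, toAff_tpow] at hg
  have h1 := congrArg Aff.s hg
  have h2 := congrArg Aff.u hg
  have h3 := congrArg Aff.v hg
  simp only [Aff.mul_s, Aff.mul_u, Aff.mul_v, Aff.inv_s, Aff.inv_u, Aff.inv_v, Aff.one_s, Aff.one_u,
    Aff.one_v, mul_one, mul_zero, neg_zero, zero_add, add_zero, Units.val_one, one_mul,
    Units.mul_right_eq_zero] at h1 h2 h3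
  have hij : i = j := by
    rw [inv_mul_eq_one] at h1
    have h4 := congrArg (fun x : ℤ_[3]ˣ => (x : ℤ_[3])) h1
    simp only [Units.val_pow_eq_pow_val, two_val] at h4
    have h5 : ((2 ^ i : ℕ) : ℤ_[3]) = ((2 ^ j : ℕ) : ℤ_[3]) := by push_cast; exact h4
    exact Nat.pow_right_injective le_rfl (Nat.cast_injective h5)
  have hm : m = 0 := by exact_mod_cast h2
  have hn : n = 0 := by exact_mod_cast h3
  subst hij hm hn
  simp

instance : Group.ResiduallyFinite BS := by
  rw [Group.residuallyFinite_iff_exists_finiteIndex]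
  intro g hg
  have h1 : toAff g ≠ 1 := by
    intro h
    exact hg (toAff_injective (by rw [h, map_one]))
  obtain ⟨H, hH2⟩ := Group.exists_finiteIndexNormalSubgroup_notMem (toAff g) h1
  exact ⟨(H.comap toAff).toSubgroup, inferInstance, fun h => hH2 h⟩

/-- The affine group is solvable. -/
instance {R : Type} [CommRing R] : Group.IsSolvable (Aff R) := by
  let p : Aff R →* Rˣ := ⟨⟨Aff.s, rfl⟩, fun _ _ => rfl⟩
  have hc : ∀ x y : p.ker, x * y = y * x := by
    rintro ⟨x, hx⟩ ⟨y, hy⟩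
    have hx' : x.s = 1 := hx
    have hy' : y.s = 1 := hy
    apply Subtype.ext
    change x * y = y * x
    ext
    · simp [hx', hy']
    · simp [hx', hy', add_comm]
    · simp [hx', hy', add_comm]
  have : Group.IsSolvable p.ker := Group.isSolvable_of_comm hc
  exact Group.isSolvable_of_ker_le_range p.ker.subtype p (by simp)

instance : Group.IsSolvable BS := Group.isSolvable_of_isSolvable_injective toAff_injective

lemma free_ab (m n : ℤ) (h : a ^ m * b ^ n = 1) : m = 0 ∧ n = 0 := by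
  have h0 := congrArg toAff h
  rw [map_mul, toAff_apow, toAff_bpow, map_one] at h0
  have h2 := congrArg Aff.u h0
  have h3 := congrArg Aff.v h0
  simp only [Aff.mul_u, Aff.mul_v, Aff.one_u, Aff.one_v, mul_zero, add_zero, zero_add,
    Units.val_one, one_mul] at h2 h3
  exact ⟨by exact_mod_cast h2, by exact_mod_cast h3⟩

end BS

/-- In a finite group, an element which is conjugate to its square has odd order. -/
lemma odd_orderOf_of_conj {Q : Type*} [Group Q] [Finite Q] (x t : Q) (h : t * x = x * x * t) :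
    Odd (orderOf x) := by
  have h1 : SemiconjBy t x (x ^ 2) := by rw [pow_two]; exact h
  have h2 : orderOf (x ^ 2) = orderOf x := by
    have h3 : x ^ 2 = t * x * t⁻¹ := by rw [h1.eq]; group
    rw [h3]
    exact (SemiconjBy.orderOf_eq t (by
      show SemiconjBy t x (t * x * t⁻¹)
      simp [SemiconjBy])).symm
  rw [orderOf_pow] at h2
  have h3 : 0 < orderOf x := orderOf_pos x
  by_contra hodd
  rw [Nat.not_odd_iff_even] at hodd
  have h4 : Nat.gcd (orderOf x) 2 = 2 := Nat.gcd_eq_right (even_iff_two_dvd.1 hodd)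
  rw [h4] at h2
  omega

lemma BS.odd_quotient (N : Subgroup BS) (hN : N.Normal) (hfin : N.FiniteIndex) :
    ∃ n : ℕ, Odd n ∧ BS.a ^ n ∈ N ∧ BS.b ^ n ∈ N := by
  have hQ : Finite (BS ⧸ N) := inferInstance
  let q : BS →* BS ⧸ N := QuotientGroup.mk' N
  have ha : Odd (orderOf (q BS.a)) := odd_orderOf_of_conj (q BS.a) (q BS.t) (by
    rw [← map_mul, ← map_mul, ← map_mul, BS.rel_ta])
  have hb : Odd (orderOf (q BS.b)) := odd_orderOf_of_conj (q BS.b) (q BS.t) (by
    rw [← map_mul, ← map_mul, ← map_mul, BS.rel_tb])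
  refine ⟨orderOf (q BS.a) * orderOf (q BS.b), ha.mul hb, ?_, ?_⟩
  · have h1 : q (BS.a ^ (orderOf (q BS.a) * orderOf (q BS.b))) = 1 := by
      rw [map_pow, pow_mul, pow_orderOf_eq_one, one_pow]
    exact (QuotientGroup.eq_one_iff _).1 h1
  · have h1 : q (BS.b ^ (orderOf (q BS.a) * orderOf (q BS.b))) = 1 := by
      rw [map_pow, mul_comm, pow_mul, pow_orderOf_eq_one, one_pow]
    exact (QuotientGroup.eq_one_iff _).1 h1

end Pool.Agent.Lib.MP_39f9da_an
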