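import Mathlib

set_option autoImplicit false

/-!
# Flows with divergence one over a pair of commuting elements

Let `G` be a group and let `a b : G` commute and generate a free abelian group of rank two.
Over the alphabet `ZMod 2 × ZMod 2` we consider the configurations `x` with
`(x g).1 + (x (a * g)).1 + (x g).2 + (x (b * g)).2 = 1` for all `g`.
They form a nonempty strongly irreducible subshift of finite type.  If in every finite quotient of
`G` the images of `a` and `b` have odd order, then no configuration has finite orbit.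
-/

namespace Pool.Agent.Lib.MP_39f9da_an

/-- Every function on the integers has a primitive. -/
lemma exists_int_primitive {M : Type*} [AddCommGroup M] (f : ℤ → M) :
    ∃ F : ℤ → M, ∀ n, F (n + 1) = F n + f n := by
  refine ⟨fun n => ∑ k ∈ Finset.Ico 0 n, f k - ∑ k ∈ Finset.Ico n 0, f k, fun n => ?_⟩
  rcases le_or_gt 0 n with hn | hn
  · have h1 : Finset.Ico (0 : ℤ) (n + 1) = insert n (Finset.Ico 0 n) := by
      ext k; simp only [Finset.mem_insert, Finset.mem_Ico]; omega
    have h2 : Finset.Ico (n + 1) (0 : ℤ) = ∅ := by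
      rw [Finset.Ico_eq_empty_iff]; omega
    have h3 : Finset.Ico n (0 : ℤ) = ∅ := by
      rw [Finset.Ico_eq_empty_iff]; omega
    simp only [h1, h2, h3]
    rw [Finset.sum_insert (by simp)]
    simp [add_comm]
  · have h1 : Finset.Ico n (0 : ℤ) = insert n (Finset.Ico (n + 1) 0) := by
      ext k; simp only [Finset.mem_insert, Finset.mem_Ico]; omega
    have h2 : Finset.Ico (0 : ℤ) (n + 1) = ∅ := by
      rw [Finset.Ico_eq_empty_iff]; omega
    have h3 : Finset.Ico (0 : ℤ) n = ∅ := by
      rw [Finset.Ico_eq_empty_iff]; omega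
    simp only [h1, h2, h3]
    rw [Finset.sum_insert (by simp)]
    simp

/-- A compatible pair of difference fields on the square lattice has a potential. -/
lemma exists_int_stream {M : Type*} [AddCommGroup M] (h v : ℤ → ℤ → M)
    (hv : ∀ i j, v i (j + 1) - v i j = h (i + 1) j - h i j) :
    ∃ φ : ℤ → ℤ → M, (∀ i j, φ i (j + 1) = φ i j + h i j) ∧
      (∀ i j, φ (i + 1) j = φ i j + v i j) := by
  obtain ⟨V, hV⟩ := exists_int_primitive (fun i => v i 0)
  choose H hH using fun i => exists_int_primitive (fun j => h i j)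
  refine ⟨fun i j => V i + (H i j - H i 0), ?_, ?_⟩
  · intro i j
    simp only [hH]
    abel
  · intro i j
    have key : ∀ j : ℤ, H (i + 1) j - H (i + 1) 0 - (H i j - H i 0) = v i j - v i 0 := by
      intro j
      induction j using Int.induction_on with
      | zero => simp
      | succ j ih =>
        have e1 := hH (i + 1) (j : ℤ)
        have e2 := hH i (j : ℤ)
        have e3 := hv i (j : ℤ)
        rw [e1, e2]
        have : v i ((j : ℤ) + 1) = v i j + (h (i + 1) j - h i j) := by
          rw [← e3]; abel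
        rw [this]
        have e4 : H (i + 1) (j : ℤ) + h (i + 1) j - H (i + 1) 0 - (H i (j : ℤ) + h i j - H i 0)
            = (H (i + 1) (j : ℤ) - H (i + 1) 0 - (H i (j : ℤ) - H i 0)) + (h (i + 1) j - h i j) := by
          abel
        rw [e4, ih]; abel
      | pred j ih =>
        have e1 := hH (i + 1) (-(j : ℤ) - 1)
        have e2 := hH i (-(j : ℤ) - 1)
        have e3 := hv i (-(j : ℤ) - 1)
        simp only [sub_add_cancel] at e1 e2 e3
        have f1 : H (i + 1) (-(j : ℤ) - 1) = H (i + 1) (-(j : ℤ)) - h (i + 1) (-(j : ℤ) - 1) := by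
          rw [e1]; abel
        have f2 : H i (-(j : ℤ) - 1) = H i (-(j : ℤ)) - h i (-(j : ℤ) - 1) := by
          rw [e2]; abel
        rw [f1, f2]
        have : v i (-(j : ℤ) - 1) = v i (-(j : ℤ)) -
            (h (i + 1) (-(j : ℤ) - 1) - h i (-(j : ℤ) - 1)) := by
          rw [← e3]; abel
        rw [this]
        have e4 : H (i + 1) (-(j : ℤ)) - h (i + 1) (-(j : ℤ) - 1) - H (i + 1) 0 -
            (H i (-(j : ℤ)) - h i (-(j : ℤ) - 1) - H i 0)
            = (H (i + 1) (-(j : ℤ)) - H (i + 1) 0 - (H i (-(j : ℤ)) - H i 0)) -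
              (h (i + 1) (-(j : ℤ) - 1) - h i (-(j : ℤ) - 1)) := by
          abel
        rw [e4, ih]; abel
    have hk := key j
    change V (i + 1) + (H (i + 1) j - H (i + 1) 0) = V i + (H i j - H i 0) + v i j
    have e : V (i + 1) + (H (i + 1) j - H (i + 1) 0) =
        V (i + 1) + ((H (i + 1) j - H (i + 1) 0 - (H i j - H i 0)) + (H i j - H i 0)) := by abel
    rw [e, hk, hV]
    abel

section group

variable {G : Type*} [Group G]

/-- Coordinates of group elements with respect to two commuting independent elements. -/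
lemma exists_coord (a b : G) (hab : a * b = b * a)
    (hfree : ∀ m n : ℤ, a ^ m * b ^ n = 1 → m = 0 ∧ n = 0) :
    ∃ (r : G → G) (c d : G → ℤ), (∀ g, g = a ^ (c g) * b ^ (d g) * r g) ∧
      (∀ g, r (a * g) = r g) ∧ (∀ g, r (b * g) = r g) ∧
      (∀ g, c (a * g) = c g + 1) ∧ (∀ g, d (a * g) = d g) ∧
      (∀ g, c (b * g) = c g) ∧ (∀ g, d (b * g) = d g + 1) := by
  have hcom : ∀ m n : ℤ, a ^ m * b ^ n = b ^ n * a ^ m := fun m n =>
    ((show Commute a b from hab).zpow_zpow m n).eq
  have hadd : ∀ m n m' n' : ℤ, ∀ g : G, a ^ m * b ^ n * (a ^ m' * b ^ n' * g) =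
      a ^ (m + m') * b ^ (n + n') * g := by
    intro m n m' n' g
    rw [zpow_add, zpow_add]
    have := hcom m' n
    calc a ^ m * b ^ n * (a ^ m' * b ^ n' * g)
        = a ^ m * (b ^ n * a ^ m') * b ^ n' * g := by group
      _ = a ^ m * (a ^ m' * b ^ n) * b ^ n' * g := by rw [this]
      _ = a ^ m * a ^ m' * (b ^ n * b ^ n') * g := by group
  let s : Setoid G :=
    { r := fun g g' => ∃ m n : ℤ, g' = a ^ m * b ^ n * g
      iseqv :=
        { refl := fun g => ⟨0, 0, by simp⟩
          symm := by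
            rintro g g' ⟨m, n, rfl⟩
            refine ⟨-m, -n, ?_⟩
            rw [hadd]; simp
          trans := by
            rintro g g' g'' ⟨m, n, rfl⟩ ⟨m', n', rfl⟩
            exact ⟨m' + m, n' + n, by rw [hadd]⟩ } }
  have hrep : ∀ g : G, ∃ m n : ℤ, g = a ^ m * b ^ n * (Quotient.out (⟦g⟧ : Quotient s)) := by
    intro g
    exact Quotient.mk_out (s := s) g
  choose c d hcd using hrep
  have hra : ∀ g : G, (⟦a * g⟧ : Quotient s) = ⟦g⟧ := by
    intro g
    apply Quotient.sound
    exact ⟨-1, 0, by simp⟩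
  have hrb : ∀ g : G, (⟦b * g⟧ : Quotient s) = ⟦g⟧ := by
    intro g
    apply Quotient.sound
    exact ⟨0, -1, by simp⟩
  have huniq : ∀ (m n m' n' : ℤ) (g : G), a ^ m * b ^ n * g = a ^ m' * b ^ n' * g →
      m = m' ∧ n = n' := by
    intro m n m' n' g h
    have h1 : a ^ m * b ^ n = a ^ m' * b ^ n' := mul_right_cancel h
    have h2 := hadd (-m') (-n') m n 1
    have h3 := hadd (-m') (-n') m' n' 1
    rw [mul_one, mul_one] at h2 h3
    rw [h1, h3] at h2
    simp only [neg_add_cancel, zpow_zero, mul_one] at h2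
    obtain ⟨h4, h5⟩ := hfree _ _ h2.symm
    constructor <;> omega
  refine ⟨fun g => Quotient.out (⟦g⟧ : Quotient s), c, d, hcd, fun g => ?_, fun g => ?_,
    fun g => ?_, fun g => ?_, fun g => ?_, fun g => ?_⟩
  · simp only [hra]
  · simp only [hrb]
  all_goals
    first
    | (have h1 := hcd (a * g)
       have h2 := hcd g
       rw [hra] at h1
       have h3 : a * g = a ^ (1 : ℤ) * b ^ (0 : ℤ) *
          (a ^ (c g) * b ^ (d g) * (Quotient.out (⟦g⟧ : Quotient s))) := by
         rw [← h2]; simp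
       rw [hadd] at h3
       rw [h3] at h1
       obtain ⟨h4, h5⟩ := huniq _ _ _ _ _ h1
       rw [← h3] at h4 h5
       omega)
    | (have h1 := hcd (b * g)
       have h2 := hcd g
       rw [hrb] at h1
       have h3 : b * g = a ^ (0 : ℤ) * b ^ (1 : ℤ) *
          (a ^ (c g) * b ^ (d g) * (Quotient.out (⟦g⟧ : Quotient s))) := by
         rw [← h2]; simp
       rw [hadd] at h3
       rw [h3] at h1
       obtain ⟨h4, h5⟩ := huniq _ _ _ _ _ h1
       rw [← h3] at h4 h5
       omega)

/-- The configurations over `ZMod 2 × ZMod 2` which are flows modulo two with divergence one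
along the directions `a` and `b`. -/
def flowShift (a b : G) : Set (G → ZMod 2 × ZMod 2) :=
  {x | ∀ g : G, (x g).1 + (x (a * g)).1 + (x g).2 + (x (b * g)).2 = 1}

/-- A flow modulo two without divergence has a stream function. -/
lemma exists_stream (a b : G) (hab : a * b = b * a)
    (hfree : ∀ m n : ℤ, a ^ m * b ^ n = 1 → m = 0 ∧ n = 0)
    (z : G → ZMod 2 × ZMod 2)
    (hz : ∀ g : G, (z g).1 + (z (a * g)).1 + (z g).2 + (z (b * g)).2 = 0) :
    ∃ φ : G → ZMod 2, ∀ g, z g = (φ g + φ (b * g), φ g + φ (a * g)) := by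
  obtain ⟨r, c, d, h0, hra, hrb, hca, hda, hcb, hdb⟩ := exists_coord a b hab hfree
  have hcom : ∀ m n : ℤ, a ^ m * b ^ n = b ^ n * a ^ m := fun m n =>
    ((show Commute a b from hab).zpow_zpow m n).eq
  have hstepa : ∀ (i j : ℤ) (g : G), a ^ (i + 1) * b ^ j * g = a * (a ^ i * b ^ j * g) := by
    intro i j g
    rw [zpow_add_one, ← mul_assoc, ← mul_assoc]
    congr 2
    exact ((Commute.refl a).zpow_left i).eq
  have hstepb : ∀ (i j : ℤ) (g : G), a ^ i * b ^ (j + 1) * g = b * (a ^ i * b ^ j * g) := by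
    intro i j g
    rw [zpow_add_one]
    have h1 : b * a ^ i = a ^ i * b := by simpa using (hcom i 1).symm
    have h2 : b ^ j * b = b * b ^ j := ((Commute.refl b).zpow_left j).eq
    calc a ^ i * (b ^ j * b) * g = a ^ i * (b * b ^ j) * g := by rw [h2]
      _ = (a ^ i * b) * b ^ j * g := by group
      _ = (b * a ^ i) * b ^ j * g := by rw [h1]
      _ = b * (a ^ i * b ^ j * g) := by group
  have hex : ∀ g : G, ∃ φ : ℤ → ℤ → ZMod 2,
      (∀ i j, φ i (j + 1) = φ i j + (z (a ^ i * b ^ j * g)).1) ∧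
      (∀ i j, φ (i + 1) j = φ i j + (z (a ^ i * b ^ j * g)).2) := by
    intro g
    apply exists_int_stream
    intro i j
    have h1 := hz (a ^ i * b ^ j * g)
    rw [← hstepa, ← hstepb] at h1
    generalize (z (a ^ i * b ^ j * g)).1 = p at *
    generalize (z (a ^ i * b ^ j * g)).2 = q at *
    generalize (z (a ^ (i + 1) * b ^ j * g)).1 = p' at *
    generalize (z (a ^ i * b ^ (j + 1) * g)).2 = q' at *
    revert p q p' q'
    decide
  choose φ hφb hφa using hex
  refine ⟨fun g => φ (r g) (c g) (d g), fun g => ?_⟩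
  have e0 := h0 g
  have e1 := hφb (r g) (c g) (d g)
  have e2 := hφa (r g) (c g) (d g)
  rw [← e0] at e1 e2
  have h2 : ∀ p q : ZMod 2, p + (p + q) = q := by decide
  ext
  · change _ = φ (r g) (c g) (d g) + φ (r (b * g)) (c (b * g)) (d (b * g))
    rw [hrb, hcb, hdb, e1, h2]
  · change _ = φ (r g) (c g) (d g) + φ (r (a * g)) (c (a * g)) (d (a * g))
    rw [hra, hca, hda, e2, h2]

/-- The flow shift is nonempty. -/
lemma flowShift_nonempty (a b : G) (hab : a * b = b * a)
    (hfree : ∀ m n : ℤ, a ^ m * b ^ n = 1 → m = 0 ∧ n = 0) : (flowShift a b).Nonempty := by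
  obtain ⟨r, c, d, h0, hra, hrb, hca, hda, hcb, hdb⟩ := exists_coord a b hab hfree
  refine ⟨fun g => ((c g : ZMod 2), 0), fun g => ?_⟩
  change ((c g : ℤ) : ZMod 2) + ((c (a * g) : ℤ) : ZMod 2) + 0 + 0 = 1
  rw [hca]
  push_cast
  generalize ((c g : ℤ) : ZMod 2) = p
  revert p
  decide

/-- The flow shift is of finite type. -/
lemma flowShift_isFiniteType (a b : G) :
    ∃ (S : Finset G) (P : Set (S → ZMod 2 × ZMod 2)),
      flowShift a b = {x | ∀ g : G, (fun s : S => x (s.1 * g)) ∈ P} := by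
  classical
  refine ⟨{1, a, b}, {p | (p ⟨1, by simp⟩).1 + (p ⟨a, by simp⟩).1 + (p ⟨1, by simp⟩).2 +
    (p ⟨b, by simp⟩).2 = 1}, ?_⟩
  ext x
  simp only [flowShift, Set.mem_setOf_eq, one_mul]

/-- The flow shift is strongly irreducible. -/
lemma flowShift_stronglyIrreducible (a b : G) (hab : a * b = b * a)
    (hfree : ∀ m n : ℤ, a ^ m * b ^ n = 1 → m = 0 ∧ n = 0) :
    ∃ Δ : Finset G, ∀ Ω₁ Ω₂ : Finset G,
        (∀ d ∈ Δ, ∀ w ∈ Ω₁, d * w ∉ Ω₂) →
        ∀ x₁ ∈ flowShift a b, ∀ x₂ ∈ flowShift a b, ∃ z ∈ flowShift a b,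
          (∀ w ∈ Ω₁, z w = x₁ w) ∧ (∀ w ∈ Ω₂, z w = x₂ w) := by
  classical
  refine ⟨(({1, a, b} : Finset G) ×ˢ ({1, a, b} : Finset G)).image (fun p => p.1⁻¹ * p.2), ?_⟩
  intro Ω₁ Ω₂ hΩ x₁ hx₁ x₂ hx₂
  obtain ⟨φ, hφ⟩ := exists_stream a b hab hfree (fun g => x₁ g + x₂ g) (by
    intro g
    have h1 := hx₁ g
    have h2 := hx₂ g
    simp only [Prod.fst_add, Prod.snd_add]
    have h3 : (x₁ g).1 + (x₂ g).1 + ((x₁ (a * g)).1 + (x₂ (a * g)).1) +
        ((x₁ g).2 + (x₂ g).2) + ((x₁ (b * g)).2 + (x₂ (b * g)).2) =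
        ((x₁ g).1 + (x₁ (a * g)).1 + (x₁ g).2 + (x₁ (b * g)).2) +
        ((x₂ g).1 + (x₂ (a * g)).1 + (x₂ g).2 + (x₂ (b * g)).2) := by ring
    rw [h3, h1, h2]
    decide)
  -- the support of the cut-off
  let W : Set G := {g | ∃ s ∈ ({1, a, b} : Finset G), ∃ w ∈ Ω₁, g = s * w}
  let ψ : G → ZMod 2 := fun g => if g ∈ W then φ g else 0
  refine ⟨fun g => x₂ g + (ψ g + ψ (b * g), ψ g + ψ (a * g)), ?_, ?_, ?_⟩
  · intro g
    have h2 := hx₂ g
    have hba : b * (a * g) = a * (b * g) := by rw [← mul_assoc, ← mul_assoc, hab]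
    simp only [Prod.fst_add, Prod.snd_add, hba]
    rw [← h2]
    have h3 : ∀ p q r s t : ZMod 2, p + q = p + q + (s + s) := by decide
    generalize (x₂ g).1 = p1
    generalize (x₂ g).2 = p2
    generalize (x₂ (a * g)).1 = p3
    generalize (x₂ (b * g)).2 = p4
    generalize ψ g = q1
    generalize ψ (a * g) = q2
    generalize ψ (b * g) = q3
    generalize ψ (a * (b * g)) = q4
    have h4 : p1 + (q1 + q3) + (p3 + (q2 + q4)) + (p2 + (q1 + q2)) + (p4 + (q3 + q4)) =
      (p1 + p3 + p2 + p4) + ((q1 + q1) + (q2 + q2) + (q3 + q3) + (q4 + q4)) := by ring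
    rw [h4]
    simp [CharTwo.add_self_eq_zero]
  · intro w hw
    have m1 : w ∈ W := ⟨1, by simp, w, hw, by simp⟩
    have m2 : a * w ∈ W := ⟨a, by simp, w, hw, rfl⟩
    have m3 : b * w ∈ W := ⟨b, by simp, w, hw, rfl⟩
    have e1 : ψ w = φ w := if_pos m1
    have e2 : ψ (a * w) = φ (a * w) := if_pos m2
    have e3 : ψ (b * w) = φ (b * w) := if_pos m3
    change x₂ w + (ψ w + ψ (b * w), ψ w + ψ (a * w)) = x₁ w
    rw [e1, e2, e3, ← hφ w]
    change x₂ w + (x₁ w + x₂ w) = x₁ w
    have h5 : ∀ p q : ZMod 2 × ZMod 2, p + (q + p) = q := by decide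
    exact h5 _ _
  · intro w hw
    have hnot : ∀ t ∈ ({1, a, b} : Finset G), t * w ∉ W := by
      rintro t ht ⟨s, hs, w', hw', e⟩
      apply hΩ (t⁻¹ * s) _ w' hw'
      · have : t⁻¹ * s * w' = w := by
          rw [mul_assoc, ← e]; group
        rw [this]; exact hw
      · rw [Finset.mem_image]
        exact ⟨(t, s), Finset.mem_product.2 ⟨ht, hs⟩, rfl⟩
    have e1 : ψ w = 0 := if_neg (by simpa using hnot 1 (by simp))
    have e2 : ψ (a * w) = 0 := if_neg (hnot a (by simp))
    have e3 : ψ (b * w) = 0 := if_neg (hnot b (by simp))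
    change x₂ w + (ψ w + ψ (b * w), ψ w + ψ (a * w)) = x₂ w
    rw [e1, e2, e3]
    simp

/-- If a configuration has finite orbit, its stabiliser has finite index. -/
lemma stabiliser_finiteIndex {A : Type*} (y : G → A)
    (hy : (Set.range (fun g : G => fun h : G => y (h * g))).Finite) :
    ∃ H : Subgroup G, H.FiniteIndex ∧ ∀ g ∈ H, ∀ h : G, y (h * g) = y h := by
  let H : Subgroup G :=
    { carrier := {g | ∀ h : G, y (h * g) = y h}
      one_mem' := fun h => by simp
      mul_mem' := by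
        intro g g' hg hg' h
        rw [← mul_assoc, hg', hg]
      inv_mem' := by
        intro g hg h
        have := hg (h * g⁻¹)
        rw [← this]; simp }
  refine ⟨H, ?_, fun g hg => hg⟩
  have : Finite (G ⧸ H) := by
    have hfin : Finite (Set.range (fun g : G => fun h : G => y (h * g))) := hy
    let f : G ⧸ H → Set.range (fun g : G => fun h : G => y (h * g)) :=
      fun q => ⟨fun h => y (h * q.out), ⟨q.out, rfl⟩⟩
    apply Finite.of_injective f
    intro q q' hqq'
    have h1 : (fun h => y (h * q.out)) = (fun h => y (h * q'.out)) := Subtype.ext_iff.1 hqq'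
    have h2 : (q.out)⁻¹ * q'.out ∈ H := by
      intro h
      have h3 := congrFun h1 (h * (q.out)⁻¹)
      simp only [inv_mul_cancel_right] at h3
      rw [h3, mul_assoc]
    have h3 := QuotientGroup.eq.2 h2
    simpa using h3
  exact Subgroup.finiteIndex_of_finite_quotient

/-- If some odd powers of `a` and `b` lie in every given finite index normal subgroup, then the
flow shift has no configuration with finite orbit. -/
lemma flowShift_aperiodic (a b : G) (hab : a * b = b * a)
    (hodd : ∀ N : Subgroup G, N.Normal → N.FiniteIndex →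
      ∃ n : ℕ, Odd n ∧ a ^ n ∈ N ∧ b ^ n ∈ N)
    (y : G → ZMod 2 × ZMod 2) (hy : y ∈ flowShift a b) :
    ¬ (Set.range (fun g : G => fun h : G => y (h * g))).Finite := by
  intro hfin
  obtain ⟨H, hH, hstab⟩ := stabiliser_finiteIndex y hfin
  obtain ⟨n, hn, han, hbn⟩ := hodd H.normalCore inferInstance inferInstance
  -- translation by the powers
  have key : ∀ c : G, c ∈ H.normalCore → ∀ h : G, y (c * h) = y h := by
    intro c hc h
    have h1 : h⁻¹ * c * h ∈ H := by
      have := hc h⁻¹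
      simpa using this
    have h2 := hstab _ h1 h
    rw [← h2]
    congr 1
    group
  have hcom : ∀ m n : ℕ, a ^ m * b ^ n = b ^ n * a ^ m := fun m n =>
    ((show Commute a b from hab).pow_pow m n).eq
  have htel : ∀ (f : ℕ → ZMod 2) (n : ℕ), ∑ i ∈ Finset.range n, (f i + f (i + 1)) = f 0 + f n := by
    intro f n
    induction n with
    | zero => simp [CharTwo.add_self_eq_zero]
    | succ n ih =>
      rw [Finset.sum_range_succ, ih]
      have h4 : f 0 + f n + (f n + f (n + 1)) = f 0 + f (n + 1) + (f n + f n) := by ring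
      rw [h4, CharTwo.add_self_eq_zero, add_zero]
  -- sum of the constraint over a torus
  have hsum : ∑ i ∈ Finset.range n, ∑ j ∈ Finset.range n,
      ((y (a ^ i * b ^ j)).1 + (y (a * (a ^ i * b ^ j))).1 + (y (a ^ i * b ^ j)).2 +
        (y (b * (a ^ i * b ^ j))).2) = (1 : ZMod 2) := by
    have h1 : ∀ i j : ℕ, (y (a ^ i * b ^ j)).1 + (y (a * (a ^ i * b ^ j))).1 +
        (y (a ^ i * b ^ j)).2 + (y (b * (a ^ i * b ^ j))).2 = 1 := fun i j => hy _
    simp only [h1]
    simp only [Finset.sum_const, Finset.card_range, nsmul_eq_mul, mul_one]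
    obtain ⟨k, rfl⟩ := hn
    push_cast
    have : (2 : ZMod 2) = 0 := by decide
    rw [this]; simp
  have hA : ∑ j ∈ Finset.range n, ∑ i ∈ Finset.range n,
      ((y (a ^ i * b ^ j)).1 + (y (a ^ (i + 1) * b ^ j)).1) = 0 := by
    apply Finset.sum_eq_zero
    intro j _
    rw [htel (fun i => (y (a ^ i * b ^ j)).1) n]
    rw [key _ han, pow_zero, one_mul, CharTwo.add_self_eq_zero]
  have hB : ∑ i ∈ Finset.range n, ∑ j ∈ Finset.range n,
      ((y (a ^ i * b ^ j)).2 + (y (a ^ i * b ^ (j + 1))).2) = 0 := by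
    apply Finset.sum_eq_zero
    intro i _
    rw [htel (fun j => (y (a ^ i * b ^ j)).2) n]
    rw [hcom i n, key _ hbn, pow_zero, mul_one, CharTwo.add_self_eq_zero]
  have hsplit : ∑ i ∈ Finset.range n, ∑ j ∈ Finset.range n,
      ((y (a ^ i * b ^ j)).1 + (y (a * (a ^ i * b ^ j))).1 + (y (a ^ i * b ^ j)).2 +
        (y (b * (a ^ i * b ^ j))).2) =
      ∑ j ∈ Finset.range n, ∑ i ∈ Finset.range n,
      ((y (a ^ i * b ^ j)).1 + (y (a ^ (i + 1) * b ^ j)).1) +
      ∑ i ∈ Finset.range n, ∑ j ∈ Finset.range n,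
      ((y (a ^ i * b ^ j)).2 + (y (a ^ i * b ^ (j + 1))).2) := by
    rw [Finset.sum_comm (s := Finset.range n) (t := Finset.range n)
      (f := fun j i => ((y (a ^ i * b ^ j)).1 + (y (a ^ (i + 1) * b ^ j)).1))]
    rw [← Finset.sum_add_distrib]
    apply Finset.sum_congr rfl
    intro i _
    rw [← Finset.sum_add_distrib]
    apply Finset.sum_congr rfl
    intro j _
    have e1 : a * (a ^ i * b ^ j) = a ^ (i + 1) * b ^ j := by
      rw [pow_succ', mul_assoc]
    have e2 : b * (a ^ i * b ^ j) = a ^ i * b ^ (j + 1) := by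
      rw [pow_succ', ← mul_assoc, ← mul_assoc]
      have := hcom i 1
      rw [pow_one] at this
      rw [this]
    rw [e1, e2]
    ring
  rw [hsplit, hA, hB] at hsum
  exact absurd hsum (by decide)

end group

end Pool.Agent.Lib.MP_39f9da_an
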